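import Pool.Agent.Lib_helper36.AvgConn.UnivSeq
import Pool.Agent.Lib_helper36.AvgConn.Test
import Pool.Agent.Lib_helper36.AvgConn.Criterion
import Pool.Agent.Lib_helper36.AvgConn.Sparse

/-!
Degree sequences for which some realisation attains the bound on the average connectivity: an
explicit criterion if the largest entry is small compared with the square root of the number of
entries that are at least three, and NP-completeness as soon as the largest entry may be a little
larger than the square root of the length.
-/

set_option autoImplicit false

namespace Pool.Agent.Results.MP_98234c_co.Dichotomy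

open Pool.Agent.AvgConn Pool.Agent.Poly

/-- (1) If at least `1000 d_1 ^ 2` entries of a non-increasing sequence are at least three, then it
is attainable if and only if its sum is even and at most `d_1 - d_2` entries are equal to one.
(2) Attainability is in NP. (3) For every `s`, the problem 3-PARTITION reduces in polynomial time to
attainability of graphical sequences of length `n` whose entries `d` satisfy `3 ≤ d` and
`d ^ (2 s) ≤ n ^ (s + 1)`. (4) For every `t` it also reduces to attainability of graphical sequences
all of whose entries are at least `t / (t + 1)` times the length. -/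
theorem result :
    (∀ D : List ℕ, 2 ≤ D.length → D.Pairwise (· ≥ ·) →
      1000 * D.getD 0 0 ^ 2 ≤ (D.filter fun d => decide (3 ≤ d)).length →
      (Attainable D ↔ Even D.sum ∧ D.count 1 + D.getD 1 0 ≤ D.getD 0 0)) ∧
    InNP Attainable ∧
    (∀ s : ℕ, ∃ R : ℕ × List ℕ → List ℕ, PolyTime R ∧
      (∀ I, Graphical (R I) ∧ ∀ d ∈ R I, 3 ≤ d ∧ d ^ (2 * s) ≤ (R I).length ^ (s + 1)) ∧
      ∀ I, ThreePartition I ↔ Attainable (R I)) ∧
    (∀ t : ℕ, ∃ R : ℕ × List ℕ → List ℕ, PolyTime R ∧
      (∀ I, Graphical (R I) ∧ ∀ d ∈ R I, t * (R I).length ≤ (t + 1) * d) ∧
      ∀ I, ThreePartition I ↔ Attainable (R I)) :=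
  ⟨fun _ h1 h2 h3 => criterion h1 h2 h3, attainable_inNP, exists_reduction_sparse,
    exists_reduction⟩

end Pool.Agent.Results.MP_98234c_co.Dichotomy
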